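import Pool.Agent.Helper19.CP.Spec

set_option autoImplicit false

/-!
# CP EXT: automorphisms of algebraic extensions inside `ℂ` extend to `ℂ`
-/

namespace Pool.Agent.Helper2.CP.EXT

open Pool.Agent.Helper19.CP

theorem main : S_EXT := by
  intro L N _ σ
  obtain ⟨s, hs⟩ := exists_isTranscendenceBasis N ℂ
  have := IsAlgClosed.isAlgClosure_of_transcendence_basis (K := ℂ) (Subtype.val : s → ℂ) hs
  let e : Algebra.adjoin N (Set.range (Subtype.val : s → ℂ)) ≃+*
      Algebra.adjoin N (Set.range (Subtype.val : s → ℂ)) :=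
    hs.1.aevalEquiv.symm.toRingEquiv.trans
      ((MvPolynomial.mapEquiv s σ.toRingEquiv).trans hs.1.aevalEquiv.toRingEquiv)
  have he : ∀ x : N, e (algebraMap N _ x) = algebraMap N _ (σ x) := by
    intro x
    have h1 : hs.1.aevalEquiv.symm (algebraMap N _ x) = MvPolynomial.C x :=
      hs.1.aevalEquiv.symm.commutes x
    show hs.1.aevalEquiv (MvPolynomial.mapEquiv s σ.toRingEquiv
      (hs.1.aevalEquiv.symm (algebraMap N _ x))) = _
    rw [h1]
    have h2 : MvPolynomial.mapEquiv s σ.toRingEquiv (MvPolynomial.C x) = MvPolynomial.C (σ x) :=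
      MvPolynomial.map_C _ _
    rw [h2]
    exact hs.1.aevalEquiv.commutes (σ x)
  refine ⟨IsAlgClosure.equivOfEquiv ℂ ℂ e, fun x => ?_⟩
  have h3 := IsAlgClosure.equivOfEquiv_algebraMap ℂ ℂ e (algebraMap N _ x)
  rw [he x] at h3
  exact h3

end Pool.Agent.Helper2.CP.EXT
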